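import Mathlib

/-!
# The Erdős-Lovász Tihany conjecture and fractional cliques

`Col G S m`: the subgraph of `G` induced on `S` has a proper colouring with `m` colours. The main
result `exists_clique`: if `w` is a fractional clique of total weight more than `a + b` and for
every `S` either `S` is `a`-colourable or its complement is `b`-colourable, then `G` contains a
clique with `a + b + 1` vertices.
-/

set_option linter.unusedSectionVars false

namespace Pool.Agent.helper95.ELT

open Finset

variable {V : Type*} [Fintype V] [DecidableEq V] (G : SimpleGraph V)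

/-- `S` has a proper colouring with `m` colours. -/
def Col (S : Finset V) (m : ℕ) : Prop :=
  ∃ c : V → ℕ, (∀ u ∈ S, c u < m) ∧ ∀ u ∈ S, ∀ v ∈ S, G.Adj u v → c u ≠ c v

/-- `w` is a fractional clique. -/
structure FracClique (w : V → ℝ) : Prop where
  nonneg : ∀ v, 0 ≤ w v
  indep : ∀ I : Finset V, (∀ u ∈ I, ∀ v ∈ I, ¬ G.Adj u v) → ∑ v ∈ I, w v ≤ 1

variable {G} {w : V → ℝ}

theorem Col.mono {S T : Finset V} {m : ℕ} (h : Col G T m) (hST : S ⊆ T) : Col G S m := by
  obtain ⟨c, h1, h2⟩ := h
  exact ⟨c, fun u hu => h1 u (hST hu), fun u hu v hv => h2 u (hST hu) v (hST hv)⟩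

theorem Col.mono_num {S : Finset V} {m n : ℕ} (h : Col G S m) (hmn : m ≤ n) : Col G S n := by
  obtain ⟨c, h1, h2⟩ := h
  exact ⟨c, fun u hu => (h1 u hu).trans_le hmn, h2⟩

theorem FracClique.le_one (hw : FracClique G w) (v : V) : w v ≤ 1 := by
  have := hw.indep {v} (by simp)
  simpa using this

theorem FracClique.add_le_one (hw : FracClique G w) {u v : V} (huv : u ≠ v) (h : ¬ G.Adj u v) :
    w u + w v ≤ 1 := by
  have h' : ¬ G.Adj v u := fun h1 => h h1.symm
  have := hw.indep {u, v} (by
    intro x hx y hy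
    simp only [mem_insert, mem_singleton] at hx hy
    rcases hx with rfl | rfl <;> rcases hy with rfl | rfl <;> simp [h, h'])
  rwa [sum_pair huv] at this

theorem FracClique.adj (hw : FracClique G w) {u v : V} (huv : u ≠ v) (h : 1 < w u + w v) :
    G.Adj u v := by
  by_contra h1
  exact absurd (hw.add_le_one huv h1) (not_le.2 h)

theorem FracClique.sum_mono (hw : FracClique G w) {S T : Finset V} (h : S ⊆ T) :
    ∑ v ∈ S, w v ≤ ∑ v ∈ T, w v :=
  sum_le_sum_of_subset_of_nonneg h fun v _ _ => hw.nonneg v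

/-- The weight of a colourable set. -/
theorem FracClique.sum_le (hw : FracClique G w) {S : Finset V} {m : ℕ} (h : Col G S m) :
    ∑ v ∈ S, w v ≤ m := by
  obtain ⟨c, h1, h2⟩ := h
  rw [← sum_fiberwise_of_maps_to (g := c) (t := range m) (fun u hu => mem_range.2 (h1 u hu))]
  calc ∑ i ∈ range m, ∑ v ∈ S with c v = i, w v ≤ ∑ _i ∈ range m, (1 : ℝ) := by
        refine sum_le_sum fun i _ => hw.indep _ ?_
        intro u hu v hv huv
        rw [mem_filter] at hu hv
        exact h2 u hu.1 v hv.1 huv (hu.2.trans hv.2.symm)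
    _ = m := by simp

theorem col_insert_of_isolated {S : Finset V} {m : ℕ} {x : V} (h : Col G S m) (hm : 1 ≤ m)
    (hx : x ∉ S) (hS : ∀ u ∈ S, ¬ G.Adj x u) : Col G (insert x S) m := by
  obtain ⟨c, h1, h2⟩ := h
  have hne : ∀ u ∈ S, u ≠ x := fun u hu h => hx (h ▸ hu)
  refine ⟨fun u => if u = x then 0 else c u, ?_, ?_⟩
  · intro u hu
    rcases mem_insert.1 hu with h | h
    · simp only [h, if_true]
      omega
    · simpa [hne u h] using h1 u h
  · intro u hu v hv huv
    rcases mem_insert.1 hu with h | h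
    · rcases mem_insert.1 hv with h' | h'
      · rw [h, h'] at huv
        exact absurd huv (G.loopless.irrefl _)
      · rw [h] at huv
        exact absurd huv (hS v h')
    · rcases mem_insert.1 hv with h' | h'
      · rw [h'] at huv
        exact absurd huv.symm (hS u h)
      · simpa [hne u h, hne v h'] using h2 u h v h' huv

theorem col_of_insert_full {S : Finset V} {m : ℕ} {x : V} (hS : ∀ u ∈ S, G.Adj x u)
    (h : Col G (insert x S) (m + 1)) : Col G S m := by
  obtain ⟨c, h1, h2⟩ := h
  have hx : c x < m + 1 := h1 x (mem_insert_self _ _)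
  have h3 : ∀ u ∈ S, c u ≠ c x := fun u hu =>
    (h2 x (mem_insert_self _ _) u (mem_insert_of_mem hu) (hS u hu)).symm
  refine ⟨fun u => if c u = m then c x else c u, ?_, ?_⟩
  · intro u hu
    have h4 := h1 u (mem_insert_of_mem hu)
    have h5 := h3 u hu
    by_cases h6 : c u = m
    · simp only [h6, if_true]
      omega
    · simp only [h6, if_false]
      omega
  · intro u hu v hv huv
    have h4 := h2 u (mem_insert_of_mem hu) v (mem_insert_of_mem hv) huv
    have h5 := h3 u hu
    have h6 := h3 v hv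
    by_cases h7 : c u = m <;> by_cases h8 : c v = m <;> simp only [h7, h8, if_true, if_false]
    · omega
    · omega
    · omega
    · exact h4

theorem not_col_of_clique {K : Finset V} {m : ℕ} (hK : ∀ u ∈ K, ∀ v ∈ K, u ≠ v → G.Adj u v)
    (hm : m < K.card) : ¬ Col G K m := by
  rintro ⟨c, h1, h2⟩
  have : K.card ≤ (range m).card := by
    refine card_le_card_of_injOn c (fun u hu => by simpa using h1 u hu) ?_
    intro u hu v hv huv
    by_contra hne
    exact h2 u hu v hv (hK u hu v hv hne) huv
  rw [card_range] at this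
  omega

theorem clique_insert {K : Finset V} {x : V} (hK : ∀ u ∈ K, ∀ v ∈ K, u ≠ v → G.Adj u v)
    (hx : ∀ u ∈ K, G.Adj x u) : ∀ u ∈ insert x K, ∀ v ∈ insert x K, u ≠ v → G.Adj u v := by
  intro p hp q hq hpq
  rcases mem_insert.1 hp with h | h
  · rcases mem_insert.1 hq with h' | h'
    · exact absurd (h.trans h'.symm) hpq
    · rw [h]
      exact hx q h'
  · rcases mem_insert.1 hq with h' | h'
    · rw [h']
      exact (hx p h).symm
    · exact hK p h q h' hpq

/-- Greedy choice. -/
theorem exists_crossing (hw : FracClique G w) {A B : Finset V} {c : ℝ} (hAB : A ⊆ B)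
    (hA : ∑ v ∈ A, w v ≤ c) (hB : c < ∑ v ∈ B, w v) :
    ∃ N : Finset V, ∃ y ∈ B, y ∉ N ∧ A ⊆ N ∧ N ⊆ B ∧ ∑ v ∈ N, w v ≤ c ∧
      c < ∑ v ∈ insert y N, w v := by
  have _ := hw
  obtain ⟨N, hN, hmax⟩ := exists_max_image
    (B.powerset.filter fun N => A ⊆ N ∧ ∑ v ∈ N, w v ≤ c) Finset.card
    ⟨A, by simp [hAB, hA]⟩
  simp only [mem_filter, mem_powerset] at hN hmax
  have h1 : ∃ y ∈ B, y ∉ N := by
    by_contra hcon
    push Not at hcon
    have : N = B := Subset.antisymm hN.1 hcon
    rw [this] at hN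
    linarith [hN.2.2]
  obtain ⟨y, hyB, hyN⟩ := h1
  refine ⟨N, y, hyB, hyN, hN.2.1, hN.1, hN.2.2, ?_⟩
  by_contra hcon
  have := hmax (insert y N) ⟨insert_subset hyB hN.1, hN.2.1.trans (subset_insert _ _), not_lt.1 hcon⟩
  rw [card_insert_of_notMem hyN] at this
  omega

section unsplit

variable {a b : ℕ} {δ : ℝ} (hw : FracClique G w) (ha : 1 ≤ a) (hab : a ≤ b) (hδ : 0 < δ)
  (hW : ∑ v, w v = a + b + δ) (hU : ∀ S : Finset V, Col G S a ∨ Col G Sᶜ b)

include hw hW hU in
theorem weight_a {S : Finset V} (hS : ¬ Col G S a) : a + δ ≤ ∑ v ∈ S, w v := by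
  have h1 := (hU S).resolve_left hS
  have h2 := hw.sum_le h1
  have h3 := sum_add_sum_compl S w
  linarith

include hw hW hU in
theorem weight_b {S : Finset V} (hS : ¬ Col G S b) : b + δ ≤ ∑ v ∈ S, w v := by
  have h1 := hU Sᶜ
  rw [compl_compl] at h1
  have h1 := h1.resolve_right hS
  have h2 := hw.sum_le h1
  have h3 := sum_add_sum_compl S w
  linarith

include hw ha hδ hW hU in
/-- The non-neighbours of a vertex `x` which are not heavier than `x` are light. -/
theorem weight_nonneighbours {x : V} {Z : Finset V} (hx : x ∉ Z) (hZ : ∀ z ∈ Z, ¬ G.Adj x z)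
    (hZw : ∀ z ∈ Z, w z ≤ w x) : ∑ v ∈ Z, w v ≤ a - w x := by
  by_contra hcon
  push Not at hcon
  have hx1 := hw.le_one x
  have ha' : (1 : ℝ) ≤ a := by exact_mod_cast ha
  obtain ⟨N, y, hy, hyN, -, hNZ, h1, h2⟩ := exists_crossing hw (A := ∅) (B := Z)
    (c := a - w x) (by simp) (by simp; linarith) hcon
  rw [sum_insert hyN] at h2
  have h3 : ∑ v ∈ insert y N, w v ≤ a := by
    rw [sum_insert hyN]
    linarith [hZw y hy]
  have h4 : Col G (insert y N) a := by
    by_contra h5
    linarith [weight_a hw hW hU h5]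
  have hsub : insert y N ⊆ Z := insert_subset hy hNZ
  have h6 : Col G (insert x (insert y N)) a :=
    col_insert_of_isolated h4 ha (fun h => hx (hsub h)) fun u hu => hZ u (hsub hu)
  have h7 := hw.sum_le h6
  rw [sum_insert (fun h => hx (hsub h)), sum_insert hyN] at h7
  linarith

include hw ha hab hδ hW hU in
/-- One step in the construction of a clique of heavy vertices. -/
theorem clique_step {K : Finset V} (hK : ∀ u ∈ K, ∀ v ∈ K, u ≠ v → G.Adj u v)
    (h0 : K.Nonempty) (hKb : K.card ≤ b) (htop : ∀ v ∉ K, ∀ u ∈ K, w v ≤ w u) :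
    ∃ y ∉ K, (∀ u ∈ K, G.Adj y u) ∧ ∀ v ∉ insert y K, w v ≤ w y := by
  classical
  obtain ⟨x, hxK, hxmin⟩ := exists_min_image K w h0
  have hx1 := hw.le_one x
  -- non-neighbours
  have h1 := weight_nonneighbours hw ha hδ hW hU (x := x)
    (Z := univ.filter fun z => z ≠ x ∧ ¬ G.Adj x z) (by simp) (by simp) (by
      intro z hz
      simp only [mem_filter, mem_univ, true_and] at hz
      refine htop z (fun hzK => hz.2 (hK x hxK z hzK (Ne.symm hz.1))) x hxK)
  -- neighbours
  have h2 : ∑ v, w v = w x + (∑ v ∈ univ.filter (fun z => z ≠ x ∧ ¬ G.Adj x z), w v +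
      ∑ v ∈ univ.filter (fun z => G.Adj x z), w v) := by
    rw [← sum_union, ← sum_insert]
    · congr 1
      ext z
      simp only [mem_univ, mem_insert, mem_union, mem_filter, true_and, true_iff]
      tauto
    · simp
    · rw [disjoint_filter]
      tauto
  have hN : (b : ℝ) - 1 < ∑ v ∈ univ.filter (fun z => G.Adj x z), w v := by linarith
  have hKx : ∑ v ∈ K.erase x, w v ≤ (b : ℝ) - 1 := by
    have h3 : ∑ v ∈ K.erase x, w v ≤ ∑ _v ∈ K.erase x, (1 : ℝ) :=
      sum_le_sum fun v _ => hw.le_one v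
    rw [sum_const, nsmul_eq_mul, mul_one, card_erase_of_mem hxK] at h3
    have h4 : 1 ≤ K.card := card_pos.2 h0
    have h5 : ((K.card - 1 : ℕ) : ℝ) = (K.card : ℝ) - 1 := by
      rw [Nat.cast_sub h4]; simp
    have h6 : (K.card : ℝ) ≤ b := by exact_mod_cast hKb
    linarith
  obtain ⟨N, y, hy, hyN, hKN, hNsub, h3, h4⟩ := exists_crossing hw
    (A := K.erase x) (B := univ.filter fun z => G.Adj x z) (c := (b : ℝ) - 1) (by
      intro v hv
      rw [mem_erase] at hv
      simp only [mem_filter, mem_univ, true_and]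
      exact hK x hxK v hv.2 (Ne.symm hv.1)) hKx hN
  have hyx : G.Adj x y := by simpa using hy
  have hyK : y ∉ K := fun h => hyN (hKN (mem_erase.2 ⟨hyx.ne', h⟩))
  -- the weight of y
  have h5 : ¬ Col G (insert x (insert y N)) b := by
    intro h6
    have hb : b = (b - 1) + 1 := by omega
    rw [hb] at h6
    have h7 : Col G (insert y N) (b - 1) := by
      refine col_of_insert_full (x := x) (fun u hu => ?_) h6
      rcases mem_insert.1 hu with rfl | hu
      · exact hyx
      · simpa using hNsub hu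
    have h8 := hw.sum_le h7
    have h9 : ((b - 1 : ℕ) : ℝ) = (b : ℝ) - 1 := by
      rw [Nat.cast_sub (by omega)]; simp
    rw [h9] at h8
    linarith
  have h6 := weight_b hw hW hU h5
  have hxyN : x ∉ insert y N := by
    intro h
    rcases mem_insert.1 h with h | h
    · exact hyx.ne h
    · have := hNsub h
      simp at this
  rw [sum_insert hxyN, sum_insert hyN] at h6
  have h7 : 1 + δ ≤ w x + w y := by linarith
  -- the heaviest vertex outside of K
  obtain ⟨z, hz, hzmax⟩ := exists_max_image (univ.filter fun v => v ∉ K) w ⟨y, by simpa using hyK⟩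
  simp only [mem_filter, mem_univ, true_and] at hz hzmax
  refine ⟨z, hz, fun u hu => ?_, fun v hv => ?_⟩
  · refine hw.adj (fun h => hz (h ▸ hu)) ?_
    linarith [hzmax y hyK, hxmin u hu]
  · exact hzmax v fun h => hv (mem_insert_of_mem h)

include hw ha hab hδ hW hU in
theorem exists_clique_b : ∃ K : Finset V, (∀ u ∈ K, ∀ v ∈ K, u ≠ v → G.Adj u v) ∧
    K.card = b + 1 := by
  have key : ∀ j : ℕ, j ≤ b → ∃ K : Finset V, (∀ u ∈ K, ∀ v ∈ K, u ≠ v → G.Adj u v) ∧
      K.card = j + 1 ∧ ∀ v ∉ K, ∀ u ∈ K, w v ≤ w u := by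
    intro j
    induction j with
    | zero =>
      intro _
      have hne : (univ : Finset V).Nonempty := by
        by_contra hcon
        rw [not_nonempty_iff_eq_empty] at hcon
        rw [hcon, sum_empty] at hW
        have h1 : (0 : ℝ) ≤ a := Nat.cast_nonneg a
        have h2 : (0 : ℝ) ≤ b := Nat.cast_nonneg b
        linarith
      obtain ⟨x, -, hx⟩ := exists_max_image univ w hne
      refine ⟨{x}, ?_, by simp, ?_⟩
      · intro u hu v hv huv
        rw [mem_singleton] at hu hv
        exact absurd (hu.trans hv.symm) huv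
      · intro v _ u hu
        rw [mem_singleton] at hu
        rw [hu]
        exact hx v (mem_univ v)
    | succ j ih =>
      intro hj
      obtain ⟨K, h1, h2, h3⟩ := ih (by omega)
      obtain ⟨y, hy, h4, h5⟩ := clique_step hw ha hab hδ hW hU h1
        (card_pos.1 (by omega)) (by omega) h3
      refine ⟨insert y K, ?_, by rw [card_insert_of_notMem hy, h2], ?_⟩
      · exact clique_insert h1 h4
      · intro v hv u hu
        rcases mem_insert.1 hu with h | h
        · rw [h]
          exact h5 v hv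
        · exact h3 v (fun h' => hv (mem_insert_of_mem h')) u h
  obtain ⟨K, h1, h2, -⟩ := key b le_rfl
  exact ⟨K, h1, h2⟩

include hw ha hab hδ hW hU in
/-- A clique with at least `b + 1` vertices and less than `a + b + 1` vertices is not
maximal. -/
theorem exists_complete {K : Finset V} (hK : ∀ u ∈ K, ∀ v ∈ K, u ≠ v → G.Adj u v)
    (hb : b + 1 ≤ K.card) (hlt : K.card < a + b + 1) : ∃ v ∉ K, ∀ u ∈ K, G.Adj v u := by
  classical
  by_contra hcon
  push Not at hcon
  obtain ⟨x, hxK, hxmin⟩ := exists_min_image K w (card_pos.1 (by omega))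
  -- a subset with `b + 1` elements
  obtain ⟨K', hxK', hK'K, hK'⟩ := exists_subsuperset_card_eq (s := {x}) (t := K)
    (singleton_subset_iff.2 hxK) (n := b + 1) (by simp) hb
  rw [singleton_subset_iff] at hxK'
  have h1 : ¬ Col G K' b := not_col_of_clique
    (fun u hu v hv => hK u (hK'K hu) v (hK'K hv)) (by omega)
  have h2 : Col G K'ᶜ a := by
    have := hU K'ᶜ
    rw [compl_compl] at this
    exact this.resolve_right h1
  obtain ⟨c, hc1, hc2⟩ := h2
  -- a colour which does not occur on `K`
  have h3 : ∃ i ∈ range a, ∀ u ∈ K \ K', c u ≠ i := by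
    by_contra h4
    push Not at h4
    have h5 : range a ⊆ (K \ K').image c := by
      intro i hi
      obtain ⟨u, hu, hui⟩ := h4 i hi
      exact mem_image.2 ⟨u, hu, hui⟩
    have h6 := (card_le_card h5).trans card_image_le
    rw [card_range, card_sdiff_of_subset hK'K] at h6
    omega
  obtain ⟨i, hi, hiK⟩ := h3
  set J : Finset V := K'ᶜ.filter fun v => c v = i with hJ
  -- the weight of the class
  have h4 : ∑ v ∈ K'ᶜ, w v ≤ ∑ v ∈ J, w v + (a - 1) := by
    rw [← sum_fiberwise_of_maps_to (g := c) (t := range a)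
      (fun u hu => mem_range.2 (hc1 u hu)), ← add_sum_erase _ _ hi]
    have h5 : ∑ j ∈ (range a).erase i, ∑ v ∈ K'ᶜ with c v = j, w v ≤
        ∑ _j ∈ (range a).erase i, (1 : ℝ) := by
      refine sum_le_sum fun j _ => hw.indep _ ?_
      intro u hu v hv huv
      rw [mem_filter] at hu hv
      exact hc2 u hu.1 v hv.1 huv (hu.2.trans hv.2.symm)
    rw [sum_const, card_erase_of_mem hi, card_range, nsmul_eq_mul, mul_one,
      Nat.cast_sub ha, Nat.cast_one] at h5
    linarith
  have h5 : ∑ v ∈ K', w v + ∑ v ∈ K'ᶜ, w v = ∑ v, w v := sum_add_sum_compl K' w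
  -- a vertex of the class which is complete to K'
  have h6 : ∃ v ∈ J, ∀ u ∈ K', G.Adj v u := by
    by_contra h7
    push Not at h7
    have h8 : ∑ v ∈ J, w v ≤ ∑ u ∈ K', ∑ v ∈ J.filter (fun v => ¬ G.Adj v u), w v := by
      simp_rw [sum_filter]
      rw [sum_comm]
      refine sum_le_sum fun v hv => ?_
      obtain ⟨u, hu, huv⟩ := h7 v hv
      calc w v = if ¬ G.Adj v u then w v else 0 := by rw [if_pos huv]
        _ ≤ ∑ u ∈ K', if ¬ G.Adj v u then w v else 0 :=
          single_le_sum (f := fun u => if ¬ G.Adj v u then w v else 0)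
            (fun q _ => by split_ifs; exacts [le_rfl, hw.nonneg v]) hu
    have h10 : ∀ u ∈ K', ∑ v ∈ J.filter (fun v => ¬ G.Adj v u), w v ≤ 1 - w u := by
      intro u hu
      have huJ : u ∉ J.filter (fun v => ¬ G.Adj v u) := by
        intro h
        rw [mem_filter, hJ, mem_filter, mem_compl] at h
        exact h.1.1 hu
      have h11 := hw.indep (insert u (J.filter fun v => ¬ G.Adj v u)) (by
        intro p hp q hq hpq
        rcases mem_insert.1 hp with h | h
        · rw [h] at hpq
          rcases mem_insert.1 hq with h' | h'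
          · rw [h'] at hpq
            exact G.loopless.irrefl _ hpq
          · exact (mem_filter.1 h').2 hpq.symm
        · rcases mem_insert.1 hq with h' | h'
          · rw [h'] at hpq
            exact (mem_filter.1 h).2 hpq
          · have hp' := mem_filter.1 (mem_filter.1 h).1
            have hq' := mem_filter.1 (mem_filter.1 h').1
            exact hc2 p hp'.1 q hq'.1 hpq (hp'.2.trans hq'.2.symm))
      rw [sum_insert huJ] at h11
      linarith
    have h12 := sum_le_sum h10
    rw [sum_sub_distrib, sum_const, hK', nsmul_eq_mul, mul_one] at h12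
    push_cast at h12
    linarith
  obtain ⟨v, hvJ, hvK'⟩ := h6
  have hvc := (mem_filter.1 hvJ)
  have hvK : v ∉ K := by
    intro h
    exact hiK v (mem_sdiff.2 ⟨h, mem_compl.1 hvc.1⟩) hvc.2
  obtain ⟨u, huK, hvu⟩ := hcon v hvK
  have h7 : w v + w u ≤ 1 := hw.add_le_one (fun h => hvK (h ▸ huK)) hvu
  have h8 := hxmin u huK
  -- a cheap clique
  obtain ⟨Y, hxY, hYK', hY⟩ := exists_subsuperset_card_eq (s := {x}) (t := K')
    (singleton_subset_iff.2 hxK') (n := a) (by simpa using ha) (by omega)
  rw [singleton_subset_iff] at hxY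
  have hvY : v ∉ Y := fun h => hvK (hK'K (hYK' h))
  have h9 : ¬ Col G (insert v Y) a := by
    exact not_col_of_clique (clique_insert
      (fun p hp q hq => hK p (hK'K (hYK' hp)) q (hK'K (hYK' hq)))
      fun q hq => hvK' q (hYK' hq)) (by rw [card_insert_of_notMem hvY]; omega)
  have h10 := weight_a hw hW hU h9
  rw [sum_insert hvY, ← add_sum_erase _ _ hxY] at h10
  have h11 : ∑ v ∈ Y.erase x, w v ≤ ∑ _v ∈ Y.erase x, (1 : ℝ) :=
    sum_le_sum fun v _ => hw.le_one v
  rw [sum_const, card_erase_of_mem hxY, hY, nsmul_eq_mul, mul_one, Nat.cast_sub ha,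
    Nat.cast_one] at h11
  linarith

include hw ha hab hδ hW hU in
theorem exists_clique : ∃ K : Finset V, (∀ u ∈ K, ∀ v ∈ K, u ≠ v → G.Adj u v) ∧
    a + b + 1 ≤ K.card := by
  classical
  obtain ⟨K₀, h1, h2⟩ := exists_clique_b hw ha hab hδ hW hU
  obtain ⟨K, hK, hmax⟩ := exists_max_image
    (univ.filter fun K : Finset V => ∀ u ∈ K, ∀ v ∈ K, u ≠ v → G.Adj u v) Finset.card
    ⟨K₀, by simpa using h1⟩
  simp only [mem_filter, mem_univ, true_and] at hK hmax
  refine ⟨K, hK, ?_⟩
  by_contra hcon
  have h3 := hmax K₀ h1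
  obtain ⟨v, hv, hvK⟩ := exists_complete hw ha hab hδ hW hU hK (by omega) (by omega)
  have h4 := hmax (insert v K) (clique_insert hK hvK)
  rw [card_insert_of_notMem hv] at h4
  omega

end unsplit

end Pool.Agent.helper95.ELT
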