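import Pool.Agent.helper95.ELT.Core

/-!
# The fractional chromatic number

The fractional chromatic number is defined with fractional colourings; `exists_fracClique` is the
duality with fractional cliques.
-/

set_option linter.unusedSectionVars false

namespace Pool.Agent.helper95.ELT

open Finset

/-- A fractional colouring of `G`: a finite list of independent sets `I i` with weights `y i ≥ 0`
such that each vertex lies in sets of total weight at least one. -/
structure IsFractionalColoring {V : Type*} (G : SimpleGraph V) {n : ℕ} (I : Fin n → Set V)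
    (y : Fin n → ℝ) : Prop where
  indep : ∀ i, ∀ u ∈ I i, ∀ v ∈ I i, ¬ G.Adj u v
  nonneg : ∀ i, 0 ≤ y i
  cover : ∀ v, 1 ≤ ∑ i, (I i).indicator (fun _ => y i) v

/-- The fractional chromatic number: the infimum of the total weights of the fractional
colourings. -/
noncomputable def fractionalChromaticNumber {V : Type*} (G : SimpleGraph V) : ℝ :=
  sInf {x : ℝ | ∃ (n : ℕ) (I : Fin n → Set V) (y : Fin n → ℝ),
    IsFractionalColoring G I y ∧ x = ∑ i, y i}

variable {V : Type*} [Fintype V] [DecidableEq V] {G : SimpleGraph V}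

theorem fractionalChromaticNumber_le {n : ℕ} {I : Fin n → Set V} {y : Fin n → ℝ}
    (h : IsFractionalColoring G I y) : fractionalChromaticNumber G ≤ ∑ i, y i := by
  refine csInf_le ⟨0, ?_⟩ ⟨n, I, y, h, rfl⟩
  rintro x ⟨m, J, z, hz, rfl⟩
  exact sum_nonneg fun i _ => hz.nonneg i

theorem exists_fracClique_pos {c : ℝ} (hc : 0 < c) (h : c < fractionalChromaticNumber G) :
    ∃ w : V → ℝ, FracClique G w ∧ c < ∑ v, w v := by
  classical
  let 𝓘 := {I : Finset V // ∀ u ∈ I, ∀ v ∈ I, ¬ G.Adj u v}
  let φ : (𝓘 → ℝ) →ₗ[ℝ] (V → ℝ) :=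
    { toFun := fun y v => ∑ I : 𝓘, if v ∈ I.1 then y I else 0
      map_add' := fun y z => by
        funext v
        simp only [Pi.add_apply, ← sum_add_distrib]
        refine sum_congr rfl fun I _ => ?_
        split_ifs <;> simp
      map_smul' := fun r y => by
        funext v
        simp only [Pi.smul_apply, smul_eq_mul, RingHom.id_apply, mul_sum]
        refine sum_congr rfl fun I _ => ?_
        split_ifs <;> simp }
  have hφ : ∀ y v, φ y v = ∑ I : 𝓘, if v ∈ I.1 then y I else 0 := fun _ _ => rfl
  set K : Set (V → ℝ) := φ '' stdSimplex ℝ 𝓘 with hK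
  set D : Set (V → ℝ) := {x | ∀ v, 1 / c ≤ x v} with hD
  have hKc : Convex ℝ K := (convex_stdSimplex ℝ 𝓘).linear_image φ
  have hKk : IsCompact K := (isCompact_stdSimplex ℝ 𝓘).image φ.continuous_of_finiteDimensional
  have hDc : Convex ℝ D := by
    intro x hx y hy p q hp hq hpq v
    have h1 := hx v
    have h2 := hy v
    simp only [Pi.add_apply, Pi.smul_apply, smul_eq_mul]
    calc 1 / c = p * (1 / c) + q * (1 / c) := by rw [← add_mul, hpq, one_mul]
      _ ≤ p * x v + q * y v := add_le_add (mul_le_mul_of_nonneg_left h1 hp)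
          (mul_le_mul_of_nonneg_left h2 hq)
  have hDk : IsClosed D := by
    have : D = ⋂ v, {x : V → ℝ | 1 / c ≤ x v} := by
      ext x; simp [hD]
    rw [this]
    exact isClosed_iInter fun v => isClosed_le continuous_const (continuous_apply v)
  have hdisj : Disjoint K D := by
    rw [Set.disjoint_left]
    rintro x ⟨y, hy, rfl⟩ hx
    let e := Fintype.equivFin 𝓘
    have h1 : IsFractionalColoring G (fun i => ((e.symm i).1 : Set V))
        (fun i => c * y (e.symm i)) := by
      refine ⟨fun i u hu v hv => (e.symm i).2 u hu v hv,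
        fun i => mul_nonneg hc.le (hy.1 _), fun v => ?_⟩
      have h2 : ∑ i, (((e.symm i).1 : Finset V) : Set V).indicator
          (fun _ => c * y (e.symm i)) v = c * φ y v := by
        rw [hφ, mul_sum, ← e.symm.sum_comp]
        refine sum_congr rfl fun i _ => ?_
        by_cases h3 : v ∈ (e.symm i).1
        · rw [Set.indicator_of_mem (by simpa using h3), if_pos h3]
        · rw [Set.indicator_of_notMem (by simpa using h3), if_neg h3, mul_zero]
      rw [h2]
      have h4 := mul_le_mul_of_nonneg_left (hx v) hc.le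
      rwa [mul_one_div_cancel hc.ne'] at h4
    have h5 := fractionalChromaticNumber_le h1
    rw [← mul_sum, e.symm.sum_comp, hy.2, mul_one] at h5
    linarith
  obtain ⟨f, u, v₀, hf1, huv, hf2⟩ :=
    geometric_hahn_banach_compact_closed hKc hKk hDc hDk hdisj
  have hfx : ∀ x : V → ℝ, f x = ∑ v, x v * f (Pi.single v 1) := by
    intro x
    have h1 := LinearMap.pi_apply_eq_sum_univ (f : (V → ℝ) →ₗ[ℝ] ℝ) x
    simp only [ContinuousLinearMap.coe_coe, smul_eq_mul] at h1
    rw [h1]
    refine sum_congr rfl fun v _ => ?_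
    congr 2
    funext j
    simp [Pi.single_apply, eq_comm]
  set w : V → ℝ := fun v => f (Pi.single v 1) with hw
  have hd : (fun _ : V => 1 / c) ∈ D := fun v => le_rfl
  have hw0 : ∀ v, 0 ≤ w v := by
    intro v
    by_contra hcon
    push Not at hcon
    have h1 : (fun j : V => 1 / c + (if j = v then
        (f (fun _ : V => 1 / c) - v₀) / (- w v) else 0)) ∈ D := by
      intro j
      have h2 : 0 ≤ (f (fun _ : V => 1 / c) - v₀) / (- w v) :=
        div_nonneg (by linarith [hf2 _ hd]) (by linarith)
      show 1 / c ≤ 1 / c + (if j = v then (f (fun _ : V => 1 / c) - v₀) / (- w v) else 0)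
      split_ifs
      · linarith
      · linarith
    have h3 := hf2 _ h1
    rw [hfx] at h3
    have h4 : ∑ j, (1 / c + (if j = v then (f (fun _ : V => 1 / c) - v₀) / (- w v) else 0)) *
        f (Pi.single j 1) = f (fun _ : V => 1 / c) +
          (f (fun _ : V => 1 / c) - v₀) / (- w v) * w v := by
      rw [hfx (fun _ : V => 1 / c)]
      simp only [add_mul, sum_add_distrib, ite_mul, zero_mul]
      rw [sum_ite_eq' univ v]
      simp [hw]
    rw [h4] at h3
    have h5 : (f (fun _ : V => 1 / c) - v₀) / (- w v) * w v = -(f (fun _ : V => 1 / c) - v₀) := by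
      rw [div_neg, neg_mul, div_mul_cancel₀ _ hcon.ne]
    rw [h5] at h3
    linarith
  have hmem : ∀ I : 𝓘, (fun v => if v ∈ I.1 then (1 : ℝ) else 0) ∈ K := by
    intro I
    refine ⟨Pi.single I 1, single_mem_stdSimplex ℝ I, ?_⟩
    funext v
    rw [hφ]
    rw [sum_eq_single I]
    · simp
    · intro J _ hJ
      simp [hJ]
    · intro h; exact absurd (mem_univ _) h
  have hwI : ∀ I : 𝓘, ∑ v ∈ I.1, w v < u := by
    intro I
    have h1 := hf1 _ (hmem I)
    rw [hfx] at h1
    simpa [ite_mul, sum_ite_mem] using h1
  have hu : 0 < u := by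
    have := hwI ⟨∅, by simp⟩
    simpa using this
  refine ⟨fun v => w v / u, ⟨fun v => div_nonneg (hw0 v) hu.le, fun I hI => ?_⟩, ?_⟩
  · rw [← sum_div, div_le_one hu]
    exact (hwI ⟨I, hI⟩).le
  · rw [← sum_div, lt_div_iff₀ hu]
    have h1 := hf2 _ hd
    rw [hfx, ← mul_sum] at h1
    have h2 : u < 1 / c * ∑ v, w v := huv.trans h1
    rw [one_div, inv_mul_eq_div, lt_div_iff₀ hc] at h2
    linarith

/-- Linear programming duality: a graph with fractional chromatic number more than `c` has a
fractional clique of total weight more than `c`. -/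
theorem exists_fracClique {c : ℝ} (h : c < fractionalChromaticNumber G) :
    ∃ w : V → ℝ, FracClique G w ∧ c < ∑ v, w v := by
  rcases lt_or_ge 0 c with hc | hc
  · exact exists_fracClique_pos hc h
  · rcases isEmpty_or_nonempty V with hV | ⟨⟨x⟩⟩
    · have h1 : IsFractionalColoring G (n := 0) (fun i => i.elim0) (fun i => i.elim0) :=
        ⟨fun i => i.elim0, fun i => i.elim0, fun v => hV.elim v⟩
      have h2 := fractionalChromaticNumber_le h1
      simp only [univ_eq_empty, sum_empty] at h2
      exact ⟨fun _ => 0, ⟨fun _ => le_rfl, fun I _ => by simp⟩, by simpa using h.trans_le h2⟩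
    · refine ⟨Pi.single x 1, ⟨fun v => ?_, fun I _ => ?_⟩, ?_⟩
      · by_cases hv : v = x
        · rw [hv, Pi.single_eq_same]; exact zero_le_one
        · rw [Pi.single_eq_of_ne hv]
      · calc ∑ v ∈ I, (Pi.single x 1 : V → ℝ) v ≤ ∑ v, (Pi.single x 1 : V → ℝ) v := by
              refine sum_le_sum_of_subset_of_nonneg (subset_univ _) fun v _ _ => ?_
              by_cases hv : v = x
              · rw [hv, Pi.single_eq_same]; exact zero_le_one
              · rw [Pi.single_eq_of_ne hv]
          _ = 1 := by simp
      · simp only [sum_pi_single', mem_univ, if_true]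
        linarith

end Pool.Agent.helper95.ELT
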