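import Pool.Agent.helper95.ELT.Frac

/-!
# Splitting joins of graphs with large fractional chromatic number
-/

set_option linter.unusedSectionVars false

namespace Pool.Agent.helper95.ELT

open Finset

variable {V : Type*} [Fintype V] [DecidableEq V] {G : SimpleGraph V}

/-- Colourings of `S` need at least `p` colours. -/
def Ge (G : SimpleGraph V) (S : Finset V) (p : ℕ) : Prop := ∀ m, Col G S m → p ≤ m

theorem Ge.mono_num {S : Finset V} {p q : ℕ} (h : Ge G S p) (hqp : q ≤ p) : Ge G S q :=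
  fun m hm => hqp.trans (h m hm)

theorem Ge.mono {S T : Finset V} {p : ℕ} (h : Ge G S p) (hST : S ⊆ T) : Ge G T p :=
  fun m hm => h m (hm.mono hST)

theorem col_card_image {S : Finset V} {c : V → ℕ}
    (hc : ∀ u ∈ S, ∀ v ∈ S, G.Adj u v → c u ≠ c v) : Col G S (S.image c).card := by
  let e := (S.image c).equivFin
  refine ⟨fun u => if h : c u ∈ S.image c then (e ⟨c u, h⟩ : ℕ) else 0, ?_, ?_⟩
  · intro u hu
    have h : c u ∈ S.image c := mem_image_of_mem c hu
    simp only [h, dif_pos]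
    exact (e ⟨c u, h⟩).2
  · intro u hu v hv huv hcon
    have h : c u ∈ S.image c := mem_image_of_mem c hu
    have h' : c v ∈ S.image c := mem_image_of_mem c hv
    simp only [h, h', dif_pos] at hcon
    have h1 := e.injective (Fin.ext hcon)
    exact hc u hu v hv huv (Subtype.mk.inj h1)

theorem ge_union {S T : Finset V} {p q : ℕ} (hjoin : ∀ u ∈ S, ∀ v ∈ T, G.Adj u v)
    (hS : Ge G S p) (hT : Ge G T q) : Ge G (S ∪ T) (p + q) := by
  rintro m ⟨c, h1, h2⟩
  have h3 := hS _ (col_card_image (c := c) fun u hu v hv =>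
    h2 u (mem_union_left _ hu) v (mem_union_left _ hv))
  have h4 := hT _ (col_card_image (c := c) fun u hu v hv =>
    h2 u (mem_union_right _ hu) v (mem_union_right _ hv))
  have h5 : Disjoint (S.image c) (T.image c) := by
    rw [disjoint_left]
    intro i hi hi'
    obtain ⟨u, hu, rfl⟩ := mem_image.1 hi
    obtain ⟨v, hv, huv⟩ := mem_image.1 hi'
    exact h2 u (mem_union_left _ hu) v (mem_union_right _ hv) (hjoin u hu v hv) huv.symm
  have h6 : S.image c ∪ T.image c ⊆ range m := by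
    rw [← image_union]
    intro i hi
    obtain ⟨u, hu, rfl⟩ := mem_image.1 hi
    exact mem_range.2 (h1 u hu)
  have h7 := card_le_card h6
  rw [card_union_of_disjoint h5, card_range] at h7
  omega

theorem col_union {S T : Finset V} {p q : ℕ} (hS : Col G S p) (hT : Col G T q) :
    Col G (S ∪ T) (p + q) := by
  obtain ⟨c, h1, h2⟩ := hS
  obtain ⟨d, h3, h4⟩ := hT
  refine ⟨fun u => if u ∈ S then c u else p + d u, ?_, ?_⟩
  · intro u hu
    by_cases h : u ∈ S
    · simp only [h, if_true]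
      exact (h1 u h).trans_le (Nat.le_add_right _ _)
    · have := h3 u ((mem_union.1 hu).resolve_left h)
      simp only [h, if_false]
      omega
  · intro u hu v hv huv
    by_cases h : u ∈ S <;> by_cases h' : v ∈ S <;> simp only [h, h', if_true, if_false]
    · exact h2 u h v h' huv
    · have := h1 u h
      omega
    · have := h1 v h'
      omega
    · have := h4 u ((mem_union.1 hu).resolve_left h) v ((mem_union.1 hv).resolve_left h') huv
      omega

theorem exists_sweep {X : Finset V} {p q : ℕ} (hX : Ge G X (p + q)) :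
    ∃ S ⊆ X, Ge G S p ∧ Ge G (X \ S) q := by
  classical
  obtain ⟨S, hS, hmin⟩ := exists_min_image (X.powerset.filter fun S => Ge G S p) Finset.card
    ⟨X, by simpa using hX.mono_num (Nat.le_add_right _ _)⟩
  simp only [mem_filter, mem_powerset] at hS hmin
  refine ⟨S, hS.1, hS.2, fun m hm => ?_⟩
  have h1 : Col G S p := by
    rcases S.eq_empty_or_nonempty with h | ⟨v, hv⟩
    · rw [h]
      exact ⟨fun _ => 0, by simp, by simp⟩
    · have h2 : ¬ Ge G (S.erase v) p := fun h3 => by
        have h4 := hmin (S.erase v) ⟨(erase_subset _ _).trans hS.1, h3⟩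
        have h5 := card_erase_lt_of_mem hv
        omega
      unfold Ge at h2
      push Not at h2
      obtain ⟨n, hn, hnp⟩ := h2
      have h3 : Col G ({v} : Finset V) 1 := ⟨fun _ => 0, by simp, fun a ha b hb hab => by
        rw [mem_singleton] at ha hb
        rw [ha, hb] at hab
        exact absurd hab (G.loopless.irrefl _)⟩
      have h4 := col_union hn h3
      refine (h4.mono ?_).mono_num hnp
      intro u hu
      by_cases h5 : u = v
      · simp [h5]
      · simp [h5, hu]
  have h2 := hX _ ((col_union h1 hm).mono (by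
    intro u hu
    by_cases h : u ∈ S
    · exact mem_union_left _ h
    · exact mem_union_right _ (mem_sdiff.2 ⟨hu, h⟩)))
  omega

/-- The graph `G` without the edges which are not in `U`. -/
def within (G : SimpleGraph V) (U : Set V) : SimpleGraph V where
  Adj u v := G.Adj u v ∧ u ∈ U ∧ v ∈ U
  symm := ⟨fun _ _ h => ⟨h.1.symm, h.2.2, h.2.1⟩⟩
  loopless := ⟨fun _ h => G.loopless.irrefl _ h.1⟩

theorem Col.within {S : Finset V} {U : Set V} {m : ℕ} (h : Col G S m) : Col (within G U) S m := by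
  obtain ⟨c, h1, h2⟩ := h
  exact ⟨c, h1, fun u hu v hv huv => h2 u hu v hv huv.1⟩

theorem exists_weight {U : Set V} {c : ℝ} (h : c < fractionalChromaticNumber (G.induce U)) :
    ∃ w : V → ℝ, FracClique (within G U) w ∧ c < ∑ v, w v ∧ ∀ v ∉ U, w v = 0 := by
  classical
  obtain ⟨w₀, hw₀, hc⟩ := exists_fracClique h
  set w : V → ℝ := fun v => if h : v ∈ U then w₀ ⟨v, h⟩ else 0 with hw
  have hsub : ∀ x : U, w x.1 = w₀ x := fun x => by simp [hw]
  have hsum : ∀ I : Finset V, ∑ v ∈ I, w v = ∑ x ∈ I.subtype (· ∈ U), w₀ x := by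
    intro I
    rw [← sum_congr rfl (fun x _ => hsub x), sum_subtype_eq_sum_filter]
    rw [sum_filter_of_ne]
    intro v _ hv
    by_contra hcon
    exact hv (by simp [hw, hcon])
  refine ⟨w, ⟨fun v => ?_, fun I hI => ?_⟩, ?_, fun v hv => by simp [hw, hv]⟩
  · by_cases hv : v ∈ U
    · simpa [hw, hv] using hw₀.nonneg _
    · simp [hw, hv]
  · rw [hsum]
    refine hw₀.indep _ fun x hx y hy hxy => ?_
    rw [mem_subtype] at hx hy
    exact hI x.1 hx y.1 hy ⟨by simpa using hxy, x.2, y.2⟩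
  · rw [hsum univ]
    convert hc using 2
    ext x
    simp

/-- `U` contains a clique with `n` vertices. -/
def HasClique (G : SimpleGraph V) (U : Set V) (n : ℕ) : Prop :=
  ∃ K : Finset V, (K : Set V) ⊆ U ∧ (∀ u ∈ K, ∀ v ∈ K, u ≠ v → G.Adj u v) ∧ K.card = n

theorem split_part_aux {U : Set V} {κ p q : ℕ}
    (h : (κ : ℝ) - 1 < fractionalChromaticNumber (G.induce U)) (hK : ¬ HasClique G U κ)
    (hp : 2 ≤ p) (hpq : p ≤ q) (hκ : p + q = κ + 1) :
    ∃ S T : Finset V, (S : Set V) ⊆ U ∧ (T : Set V) ⊆ U ∧ Disjoint S T ∧ Ge G S p ∧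
      Ge G T q := by
  classical
  obtain ⟨w, hw, hc, -⟩ := exists_weight h
  by_cases hU : ∀ S : Finset V, Col (within G U) S (p - 1) ∨ Col (within G U) Sᶜ (q - 1)
  · exfalso
    obtain ⟨K, h1, h2⟩ := exists_clique (a := p - 1) (b := q - 1)
      (δ := ∑ v, w v - ((p - 1 : ℕ) + (q - 1 : ℕ) : ℝ)) hw (by omega) (by omega) (by
        have h3 : ((p - 1 : ℕ) : ℝ) + ((q - 1 : ℕ) : ℝ) = (κ : ℝ) - 1 := by
          rw [Nat.cast_sub (by omega), Nat.cast_sub (by omega)]
          have : (p : ℝ) + q = κ + 1 := by exact_mod_cast hκ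
          push_cast
          linarith
        rw [h3]
        linarith) (by ring) hU
    obtain ⟨K', h3, h4⟩ := exists_subset_card_eq (s := K) (n := κ) (by omega)
    refine hK ⟨K', ?_, fun u hu v hv huv => (h1 u (h3 hu) v (h3 hv) huv).1, h4⟩
    intro u hu
    have h5 : 1 < K'.card := by omega
    obtain ⟨v, hv, hvu⟩ := exists_mem_ne h5 u
    exact (h1 u (h3 hu) v (h3 hv) hvu.symm).2.1
  · push Not at hU
    obtain ⟨S, h1, h2⟩ := hU
    have key : ∀ (T : Finset V) (r : ℕ), 2 ≤ r → ¬ Col (within G U) T (r - 1) →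
        Ge G (T.filter (· ∈ U)) r := by
      intro T r hr hT m hm
      by_contra hcon
      apply hT
      obtain ⟨c, h3, h4⟩ := hm
      refine ⟨fun u => if u ∈ U then c u else 0, fun u hu => ?_, fun u hu v hv huv => ?_⟩
      · by_cases h5 : u ∈ U
        · have := h3 u (mem_filter.2 ⟨hu, h5⟩)
          simp only [h5, if_true]
          omega
        · simp only [h5, if_false]
          omega
      · simp only [huv.2.1, huv.2.2, if_true]
        exact h4 u (mem_filter.2 ⟨hu, huv.2.1⟩) v (mem_filter.2 ⟨hv, huv.2.2⟩) huv.1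
    refine ⟨S.filter (· ∈ U), Sᶜ.filter (· ∈ U), ?_, ?_, ?_, key S p hp h1,
      key Sᶜ q (by omega) h2⟩
    · intro u hu
      exact (mem_filter.1 (mem_coe.1 hu)).2
    · intro u hu
      exact (mem_filter.1 (mem_coe.1 hu)).2
    · exact disjoint_filter_filter disjoint_compl_right

theorem split_part {U : Set V} {κ p q : ℕ}
    (h : (κ : ℝ) - 1 < fractionalChromaticNumber (G.induce U)) (hK : ¬ HasClique G U κ)
    (hp : 2 ≤ p) (hq : 2 ≤ q) (hκ : p + q = κ + 1) :
    ∃ S T : Finset V, (S : Set V) ⊆ U ∧ (T : Set V) ⊆ U ∧ Disjoint S T ∧ Ge G S p ∧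
      Ge G T q := by
  rcases le_total p q with hpq | hpq
  · exact split_part_aux h hK hp hpq hκ
  · obtain ⟨S, T, h1, h2, h3, h4, h5⟩ := split_part_aux h hK hq hpq (by omega)
    exact ⟨T, S, h2, h1, h3.symm, h5, h4⟩

theorem ge_part {U : Set V} {κ : ℕ} (h : (κ : ℝ) - 1 < fractionalChromaticNumber (G.induce U))
    {X : Finset V} (hX : ∀ v ∈ U, v ∈ X) : Ge G X κ := by
  obtain ⟨w, hw, hc, h0⟩ := exists_weight h
  intro m hm
  have h1 := hw.sum_le hm.within
  have h2 : ∑ v ∈ X, w v = ∑ v, w v := by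
    refine sum_subset (subset_univ _) fun v _ hv => h0 v fun h => hv (hX v h)
  have h3 : (κ : ℝ) < m + 1 := by linarith
  have h4 : κ < m + 1 := by exact_mod_cast h3
  omega

theorem ge_biUnion {ι : Type*} [DecidableEq ι] {X : ι → Finset V} {κ : ι → ℕ} (s : Finset ι)
    (hX : ∀ i ∈ s, Ge G (X i) (κ i))
    (hjoin : ∀ i ∈ s, ∀ j ∈ s, i ≠ j → ∀ u ∈ X i, ∀ v ∈ X j, G.Adj u v) :
    Ge G (s.biUnion X) (∑ i ∈ s, κ i) := by
  induction s using Finset.induction_on with
  | empty => intro m _; simp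
  | insert a s has ih =>
    rw [biUnion_insert, sum_insert has]
    refine ge_union ?_ (hX a (mem_insert_self _ _)) (ih (fun i hi => hX i (mem_insert_of_mem hi))
      fun i hi j hj => hjoin i (mem_insert_of_mem hi) j (mem_insert_of_mem hj))
    intro u hu v hv
    obtain ⟨j, hj, hvj⟩ := mem_biUnion.1 hv
    exact hjoin a (mem_insert_self _ _) j (mem_insert_of_mem hj) (fun h => has (h ▸ hj)) u hu v hvj

/-- The theorem for joins. -/
theorem join_split {ι : Type*} [Fintype ι] (U : ι → Set V) (κ : ι → ℕ) {k : ℕ}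
    (hjoin : ∀ i j, i ≠ j → ∀ u ∈ U i, ∀ v ∈ U j, G.Adj u v)
    (hfrac : ∀ i, (κ i : ℝ) - 1 < fractionalChromaticNumber (G.induce (U i)))
    (hsum : ∑ i, κ i = k) (hfree : ¬ HasClique G Set.univ k) {p q : ℕ} (hp : 2 ≤ p) (hq : 2 ≤ q)
    (hpq : p + q = k + 1) :
    ∃ S T : Finset V, Disjoint S T ∧ Ge G S p ∧ Ge G T q := by
  classical
  set X : ι → Finset V := fun i => univ.filter (· ∈ U i) with hX
  have hXU : ∀ i v, v ∈ X i ↔ v ∈ U i := fun i v => by simp [hX]
  have hge : ∀ i, Ge G (X i) (κ i) := fun i => ge_part (hfrac i) fun v hv => (hXU i v).2 hv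
  have hdisj : ∀ i j, i ≠ j → ∀ v, v ∈ U i → v ∉ U j := fun i j hij v hi hj =>
    G.loopless.irrefl _ (hjoin i j hij v hi v hj)
  -- a part without a clique
  have h1 : ∃ i, ¬ HasClique G (U i) (κ i) := by
    by_contra hcon
    push Not at hcon
    choose K hK1 hK2 hK3 using hcon
    have hKd : ∀ i j, i ≠ j → Disjoint (K i) (K j) := fun i j hij =>
      disjoint_left.2 fun v hi hj => hdisj i j hij v (hK1 i hi) (hK1 j hj)
    refine hfree ⟨univ.biUnion K, Set.subset_univ _, ?_, ?_⟩
    · intro u hu v hv huv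
      obtain ⟨i, -, hi⟩ := mem_biUnion.1 hu
      obtain ⟨j, -, hj⟩ := mem_biUnion.1 hv
      by_cases hij : i = j
      · rw [← hij] at hj
        exact hK2 i u hi v hj huv
      · exact hjoin i j hij u (hK1 i hi) v (hK1 j hj)
    · rw [card_biUnion fun i _ j _ hij => hKd i j hij]
      rw [← hsum]
      exact sum_congr rfl fun i _ => hK3 i
  obtain ⟨i, hi⟩ := h1
  have h3 : 3 ≤ κ i := by
    by_contra hcon
    have h4 : κ i = 0 ∨ κ i = 1 ∨ κ i = 2 := by omega
    apply hi
    rcases h4 with h4 | h4 | h4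
    · exact ⟨∅, by simp, by simp, by simp [h4]⟩
    · have h5 : (X i).Nonempty := by
        by_contra h6
        rw [not_nonempty_iff_eq_empty] at h6
        have := hge i 0 (by rw [h6]; exact ⟨fun _ => 0, by simp, by simp⟩)
        omega
      obtain ⟨v, hv⟩ := h5
      refine ⟨{v}, by simpa using (hXU i v).1 hv, ?_, by simp [h4]⟩
      intro a ha b hb hab
      rw [mem_singleton] at ha hb
      exact absurd (ha.trans hb.symm) hab
    · by_contra h5
      have h6 : Col G (X i) 1 := by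
        refine ⟨fun _ => 0, fun _ _ => zero_lt_one, fun u hu v hv huv => ?_⟩
        exfalso
        apply h5
        refine ⟨{u, v}, ?_, ?_, by rw [card_pair huv.ne, h4]⟩
        · intro x hx
          simp only [coe_insert, coe_singleton, Set.mem_insert_iff, Set.mem_singleton_iff] at hx
          rcases hx with h | h
          · rw [h]; exact (hXU i u).1 hu
          · rw [h]; exact (hXU i v).1 hv
        · intro x hx y hy hxy
          simp only [mem_insert, mem_singleton] at hx hy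
          rcases hx with h | h <;> rcases hy with h' | h'
          · exact absurd (h.trans h'.symm) hxy
          · rw [h, h']; exact huv
          · rw [h, h']; exact huv.symm
          · exact absurd (h.trans h'.symm) hxy
      have := hge i 1 h6
      omega
  -- the other parts
  set X' : Finset V := (univ.erase i).biUnion X with hX'
  have h4 : Ge G X' (∑ j ∈ univ.erase i, κ j) :=
    ge_biUnion _ (fun j _ => hge j) fun a _ b _ hab u hu v hv =>
      hjoin a b hab u ((hXU a u).1 hu) v ((hXU b v).1 hv)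
  have h5 : κ i + ∑ j ∈ univ.erase i, κ j = k := by rw [add_sum_erase _ _ (mem_univ i), hsum]
  have h6 : ∀ u ∈ U i, ∀ v ∈ X', G.Adj u v := by
    intro u hu v hv
    obtain ⟨j, hj, hvj⟩ := mem_biUnion.1 hv
    exact hjoin i j (fun h => (mem_erase.1 hj).1 h.symm) u hu v ((hXU j v).1 hvj)
  obtain ⟨p₁, q₁, hp₁, hq₁, hpq₁, hp₁p, hq₁q⟩ : ∃ p₁ q₁ : ℕ, 2 ≤ p₁ ∧ 2 ≤ q₁ ∧
      p₁ + q₁ = κ i + 1 ∧ p₁ ≤ p ∧ q₁ ≤ q := by
    refine ⟨max 2 (κ i + 1 - q), κ i + 1 - max 2 (κ i + 1 - q), ?_, ?_, ?_, ?_, ?_⟩ <;> omega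
  obtain ⟨S₁, T₁, hS₁, hT₁, hd₁, h7, h8⟩ := split_part (hfrac i) hi hp₁ hq₁ hpq₁
  have h9 : ∑ j ∈ univ.erase i, κ j = (p - p₁) + (q - q₁) := by omega
  rw [h9] at h4
  obtain ⟨S₂, hS₂, h10, h11⟩ := exists_sweep h4
  have hdU : ∀ v ∈ U i, v ∉ X' := fun v hv hv' => G.loopless.irrefl _ (h6 v hv v hv')
  refine ⟨S₁ ∪ S₂, T₁ ∪ (X' \ S₂), ?_, ?_, ?_⟩
  · rw [disjoint_union_left, disjoint_union_right, disjoint_union_right]
    refine ⟨⟨hd₁, ?_⟩, ?_, disjoint_sdiff⟩
    · exact disjoint_left.2 fun v hv hv' => hdU v (hS₁ hv) (mem_sdiff.1 hv').1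
    · exact disjoint_left.2 fun v hv hv' => hdU v (hT₁ hv') (hS₂ hv)
  · exact (ge_union (fun u hu v hv => h6 u (hS₁ hu) v (hS₂ hv)) h7 h10).mono_num (by omega)
  · exact (ge_union (fun u hu v hv => h6 u (hT₁ hu) v (mem_sdiff.1 hv).1) h8 h11).mono_num
      (by omega)

end Pool.Agent.helper95.ELT
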